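import Mathlib

/-!
# Approximate matrix scaling (Sinkhorn)

`R5.sinkhorn_approx`: a nonnegative matrix with positive entries on a perfect matching `φ` can be
scaled by positive `α`, `β` so that the marginals are as close as we want to `lam` on the rows and
`lam ∘ φ.symm` on the columns.
-/

namespace R5

open Finset

section Sink

variable {S T : Type*} [Fintype S] [Fintype T]

/-- The (regularised) convex functional. -/
noncomputable def sinkF (φ : S ≃ T) (z : S → T → ℝ) (lam : S → ℝ) (x : S → ℝ) (y : T → ℝ) : ℝ :=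
  (∑ s, ∑ t, z s t * Real.exp (x s + y t)) - ∑ s, lam s * (x s + y (φ s))

lemma exp_lower {a l u : ℝ} (ha : 0 < a) (hl : 0 < l) :
    l * (1 + Real.log (a / l)) ≤ a * Real.exp u - l * u := by
  have h1 : u + Real.log (a / l) + 1 ≤ Real.exp (u + Real.log (a / l)) := Real.add_one_le_exp _
  have h2 : Real.exp (u + Real.log (a / l)) = Real.exp u * (a / l) := by
    rw [Real.exp_add, Real.exp_log (div_pos ha hl)]
  rw [h2] at h1
  have h3 : l * (u + Real.log (a / l) + 1) ≤ l * (Real.exp u * (a / l)) :=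
    mul_le_mul_of_nonneg_left h1 hl.le
  have h4 : l * (Real.exp u * (a / l)) = a * Real.exp u := by
    field_simp
  rw [h4] at h3
  nlinarith [h3]

lemma sinkF_lower (φ : S ≃ T) (z : S → T → ℝ) (hz : ∀ s t, 0 ≤ z s t)
    (hφ : ∀ s, 0 < z s (φ s)) (lam : S → ℝ) (hlam : ∀ s, 0 < lam s) (x : S → ℝ) (y : T → ℝ) :
    ∑ s, lam s * (1 + Real.log (z s (φ s) / lam s)) ≤ sinkF φ z lam x y := by
  unfold sinkF
  have h1 : ∑ s, z s (φ s) * Real.exp (x s + y (φ s)) ≤
      ∑ s, ∑ t, z s t * Real.exp (x s + y t) := by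
    refine Finset.sum_le_sum fun s _ => ?_
    exact Finset.single_le_sum (f := fun t => z s t * Real.exp (x s + y t))
      (fun t _ => mul_nonneg (hz s t) (Real.exp_pos _).le) (Finset.mem_univ (φ s))
  have h2 : ∑ s, lam s * (1 + Real.log (z s (φ s) / lam s)) ≤
      ∑ s, (z s (φ s) * Real.exp (x s + y (φ s)) - lam s * (x s + y (φ s))) :=
    Finset.sum_le_sum fun s _ => exp_lower (hφ s) (hlam s)
  rw [Finset.sum_sub_distrib] at h2
  linarith

lemma sinkF_continuous (φ : S ≃ T) (z : S → T → ℝ) (lam : S → ℝ) :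
    Continuous fun p : (S → ℝ) × (T → ℝ) => sinkF φ z lam p.1 p.2 := by
  unfold sinkF
  fun_prop

/-- If `(e^r - 1) A - l r + d (2 r c + r^2) ≥ 0` for all `r` then `A - l + 2 d c = 0`. -/
lemma first_order {A l d c : ℝ}
    (h : ∀ r : ℝ, 0 ≤ (Real.exp r - 1) * A - l * r + d * (2 * r * c + r ^ 2)) :
    A - l + 2 * d * c = 0 := by
  have hd : HasDerivAt (fun r : ℝ => (Real.exp r - 1) * A - l * r + d * (2 * r * c + r ^ 2))
      ((Real.exp 0) * A - l * 1 + d * (2 * 1 * c + 2 * (0:ℝ) ^ (2 - 1) * 1)) 0 := by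
    have e1 : HasDerivAt (fun r : ℝ => (Real.exp r - 1) * A) (Real.exp 0 * A) 0 :=
      ((Real.hasDerivAt_exp 0).sub_const 1).mul_const A
    have e2 : HasDerivAt (fun r : ℝ => l * r) (l * 1) 0 := (hasDerivAt_id (0:ℝ)).const_mul l
    have e3 : HasDerivAt (fun r : ℝ => 2 * r * c) (2 * 1 * c) 0 :=
      ((hasDerivAt_id (0:ℝ)).const_mul 2).mul_const c
    have e4 : HasDerivAt (fun r : ℝ => r ^ 2) (2 * (0:ℝ) ^ (2 - 1) * 1) 0 := by
      have := hasDerivAt_pow 2 (0:ℝ)
      simpa using this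
    exact (e1.sub e2).add ((e3.add e4).const_mul d)
  have hm : IsLocalMin
      (fun r : ℝ => (Real.exp r - 1) * A - l * r + d * (2 * r * c + r ^ 2)) 0 := by
    refine Filter.Eventually.of_forall fun r => ?_
    have := h r
    simpa using this
  have h0 := hm.hasDerivAt_eq_zero hd
  simp at h0
  linarith

open Classical in
lemma sinkF_shift_left (φ : S ≃ T) (z : S → T → ℝ) (lam : S → ℝ) (x : S → ℝ) (y : T → ℝ)
    (a : S) (r : ℝ) :
    sinkF φ z lam (Function.update x a (x a + r)) y =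
      sinkF φ z lam x y + (Real.exp r - 1) * (∑ t, z a t * Real.exp (x a + y t)) - lam a * r := by
  unfold sinkF
  have h1 : ∑ s, ∑ t, z s t * Real.exp (Function.update x a (x a + r) s + y t) =
      (∑ s, ∑ t, z s t * Real.exp (x s + y t)) +
        (Real.exp r - 1) * (∑ t, z a t * Real.exp (x a + y t)) := by
    rw [← Finset.add_sum_erase Finset.univ _ (Finset.mem_univ a),
      ← Finset.add_sum_erase Finset.univ (fun s => ∑ t, z s t * Real.exp (x s + y t))
        (Finset.mem_univ a)]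
    have e1 : ∑ s ∈ Finset.univ.erase a, ∑ t, z s t *
        Real.exp (Function.update x a (x a + r) s + y t) =
        ∑ s ∈ Finset.univ.erase a, ∑ t, z s t * Real.exp (x s + y t) := by
      refine Finset.sum_congr rfl fun s hs => ?_
      rw [Function.update_of_ne (Finset.ne_of_mem_erase hs)]
    have e2 : ∑ t, z a t * Real.exp (Function.update x a (x a + r) a + y t) =
        Real.exp r * ∑ t, z a t * Real.exp (x a + y t) := by
      rw [Function.update_self, Finset.mul_sum]
      refine Finset.sum_congr rfl fun t _ => ?_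
      rw [show x a + r + y t = r + (x a + y t) by ring, Real.exp_add]
      ring
    rw [e1, e2]
    ring
  have h2 : ∑ s, lam s * (Function.update x a (x a + r) s + y (φ s)) =
      (∑ s, lam s * (x s + y (φ s))) + lam a * r := by
    rw [← Finset.add_sum_erase Finset.univ _ (Finset.mem_univ a),
      ← Finset.add_sum_erase Finset.univ (fun s => lam s * (x s + y (φ s)))
        (Finset.mem_univ a)]
    have e1 : ∑ s ∈ Finset.univ.erase a, lam s *
        (Function.update x a (x a + r) s + y (φ s)) =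
        ∑ s ∈ Finset.univ.erase a, lam s * (x s + y (φ s)) := by
      refine Finset.sum_congr rfl fun s hs => ?_
      rw [Function.update_of_ne (Finset.ne_of_mem_erase hs)]
    rw [e1, Function.update_self]
    ring
  rw [h1, h2]
  ring

lemma sinkF_swap (φ : S ≃ T) (z : S → T → ℝ) (lam : S → ℝ) (x : S → ℝ) (y : T → ℝ) :
    sinkF φ z lam x y = sinkF φ.symm (fun t s => z s t) (fun t => lam (φ.symm t)) y x := by
  unfold sinkF
  rw [Finset.sum_comm]
  congr 1
  · refine Finset.sum_congr rfl fun t _ => Finset.sum_congr rfl fun s _ => ?_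
    rw [add_comm (x s) (y t)]
  · rw [← Equiv.sum_comp φ]
    refine Finset.sum_congr rfl fun s _ => ?_
    simp [add_comm]

open Classical in
lemma sq_shift (x : S → ℝ) (a : S) (r : ℝ) :
    ∑ s, (Function.update x a (x a + r) s) ^ 2 = (∑ s, x s ^ 2) + (2 * r * x a + r ^ 2) := by
  rw [← Finset.add_sum_erase Finset.univ _ (Finset.mem_univ a),
    ← Finset.add_sum_erase Finset.univ (fun s => x s ^ 2) (Finset.mem_univ a)]
  have e1 : ∑ s ∈ Finset.univ.erase a, (Function.update x a (x a + r) s) ^ 2 =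
      ∑ s ∈ Finset.univ.erase a, x s ^ 2 := by
    refine Finset.sum_congr rfl fun s hs => ?_
    rw [Function.update_of_ne (Finset.ne_of_mem_erase hs)]
  rw [e1, Function.update_self]
  ring

/-- Existence of a minimiser of the regularised functional. -/
lemma exists_min (φ : S ≃ T) (z : S → T → ℝ) (hz : ∀ s t, 0 ≤ z s t)
    (hφ : ∀ s, 0 < z s (φ s)) (lam : S → ℝ) (hlam : ∀ s, 0 < lam s) {d : ℝ} (hd : 0 < d) :
    ∃ p : (S → ℝ) × (T → ℝ), ∀ q : (S → ℝ) × (T → ℝ),
      sinkF φ z lam p.1 p.2 + d * ((∑ s, p.1 s ^ 2) + ∑ t, p.2 t ^ 2) ≤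
        sinkF φ z lam q.1 q.2 + d * ((∑ s, q.1 s ^ 2) + ∑ t, q.2 t ^ 2) := by
  have hc : Continuous fun p : (S → ℝ) × (T → ℝ) =>
      sinkF φ z lam p.1 p.2 + d * ((∑ s, p.1 s ^ 2) + ∑ t, p.2 t ^ 2) := by
    refine (sinkF_continuous φ z lam).add ?_
    fun_prop
  obtain ⟨p, hp⟩ := hc.exists_forall_le' (0 : (S → ℝ) × (T → ℝ)) (by
    set LB := ∑ s, lam s * (1 + Real.log (z s (φ s) / lam s)) with hLB
    set G0 := sinkF φ z lam (0 : (S → ℝ) × (T → ℝ)).1 (0 : (S → ℝ) × (T → ℝ)).2 +
      d * ((∑ s, (0 : (S → ℝ) × (T → ℝ)).1 s ^ 2) + ∑ t, (0 : (S → ℝ) × (T → ℝ)).2 t ^ 2) with hG0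
    set R := Real.sqrt (|G0 - LB| / d) with hR
    have hR0 : 0 ≤ R := Real.sqrt_nonneg _
    have hmem : (Metric.closedBall (0 : (S → ℝ) × (T → ℝ)) R)ᶜ ∈
        Filter.cocompact ((S → ℝ) × (T → ℝ)) :=
      (isCompact_closedBall _ _).compl_mem_cocompact
    filter_upwards [hmem] with q hq
    have hq' : R < ‖q‖ := by
      simpa [Metric.mem_closedBall, dist_zero_right, not_le] using hq
    have hsum : R ^ 2 ≤ (∑ s, q.1 s ^ 2) + ∑ t, q.2 t ^ 2 := by
      have hn1 : 0 ≤ ∑ s, q.1 s ^ 2 := Finset.sum_nonneg fun s _ => sq_nonneg _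
      have hn2 : 0 ≤ ∑ t, q.2 t ^ 2 := Finset.sum_nonneg fun s _ => sq_nonneg _
      rcases le_total ‖q.1‖ ‖q.2‖ with h | h
      · have : ‖q‖ = ‖q.2‖ := by rw [Prod.norm_def, max_eq_right h]
        rw [this] at hq'
        have : ∃ t, R < ‖q.2 t‖ := by
          by_contra hcon
          push Not at hcon
          exact absurd ((pi_norm_le_iff_of_nonneg hR0).2 hcon) (not_le.2 hq')
        obtain ⟨t, ht⟩ := this
        have h1 : q.2 t ^ 2 ≤ ∑ t, q.2 t ^ 2 :=
          Finset.single_le_sum (f := fun t => q.2 t ^ 2) (fun t _ => sq_nonneg _)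
            (Finset.mem_univ t)
        have h2 : R ^ 2 ≤ q.2 t ^ 2 := by
          rw [← sq_abs (q.2 t)]
          exact pow_le_pow_left₀ hR0 (by rw [Real.norm_eq_abs] at ht; exact ht.le) 2
        linarith
      · have : ‖q‖ = ‖q.1‖ := by rw [Prod.norm_def, max_eq_left h]
        rw [this] at hq'
        have : ∃ t, R < ‖q.1 t‖ := by
          by_contra hcon
          push Not at hcon
          exact absurd ((pi_norm_le_iff_of_nonneg hR0).2 hcon) (not_le.2 hq')
        obtain ⟨t, ht⟩ := this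
        have h1 : q.1 t ^ 2 ≤ ∑ t, q.1 t ^ 2 :=
          Finset.single_le_sum (f := fun t => q.1 t ^ 2) (fun t _ => sq_nonneg _)
            (Finset.mem_univ t)
        have h2 : R ^ 2 ≤ q.1 t ^ 2 := by
          rw [← sq_abs (q.1 t)]
          exact pow_le_pow_left₀ hR0 (by rw [Real.norm_eq_abs] at ht; exact ht.le) 2
        linarith
    have hR2 : R ^ 2 = |G0 - LB| / d := by
      rw [hR, Real.sq_sqrt (by positivity)]
    have hdR : d * R ^ 2 = |G0 - LB| := by
      rw [hR2]; field_simp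
    have h3 := sinkF_lower φ z hz hφ lam hlam q.1 q.2
    have h4 : d * R ^ 2 ≤ d * ((∑ s, q.1 s ^ 2) + ∑ t, q.2 t ^ 2) :=
      mul_le_mul_of_nonneg_left hsum hd.le
    have h5 : G0 - LB ≤ |G0 - LB| := le_abs_self _
    linarith)
  exact ⟨p, hp⟩

/-- **Approximate Sinkhorn scaling.** -/
theorem sinkhorn_approx (φ : S ≃ T) (z : S → T → ℝ) (hz : ∀ s t, 0 ≤ z s t)
    (hφ : ∀ s, 0 < z s (φ s)) (lam : S → ℝ) (hlam : ∀ s, 0 < lam s) {ε : ℝ} (hε : 0 < ε) :
    ∃ (α : S → ℝ) (β : T → ℝ), (∀ s, 0 < α s) ∧ (∀ t, 0 < β t) ∧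
      (∀ s, |(∑ t, α s * β t * z s t) - lam s| ≤ ε) ∧
      (∀ t, |(∑ s, α s * β t * z s t) - lam (φ.symm t)| ≤ ε) := by
  classical
  set LB := ∑ s, lam s * (1 + Real.log (z s (φ s) / lam s)) with hLB
  set F0 := sinkF φ z lam (0 : S → ℝ) (0 : T → ℝ) with hF0
  have hM : 0 ≤ F0 - LB := by
    have := sinkF_lower φ z hz hφ lam hlam 0 0
    linarith
  set d := ε ^ 2 / (4 * (F0 - LB + 1)) with hd
  have hd0 : 0 < d := by positivity
  obtain ⟨p, hp⟩ := exists_min φ z hz hφ lam hlam hd0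
  have hnn1 : 0 ≤ ∑ s, p.1 s ^ 2 := Finset.sum_nonneg fun s _ => sq_nonneg _
  have hnn2 : 0 ≤ ∑ t, p.2 t ^ 2 := Finset.sum_nonneg fun s _ => sq_nonneg _
  -- the norm bound
  have hbound : d * ((∑ s, p.1 s ^ 2) + ∑ t, p.2 t ^ 2) ≤ F0 - LB := by
    have h1 := hp (0, 0)
    have h2 := sinkF_lower φ z hz hφ lam hlam p.1 p.2
    simp only [Pi.zero_apply, ne_eq, OfNat.ofNat_ne_zero, not_false_eq_true, zero_pow,
      Finset.sum_const_zero, add_zero, mul_zero] at h1
    linarith
  have hkey : ∀ c : ℝ, c ^ 2 ≤ (∑ s, p.1 s ^ 2) + ∑ t, p.2 t ^ 2 → |2 * d * c| ≤ ε := by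
    intro c hc
    have h1 : d * c ^ 2 ≤ F0 - LB := (mul_le_mul_of_nonneg_left hc hd0.le).trans hbound
    have h2 : (2 * d * c) ^ 2 ≤ ε ^ 2 := by
      have e1 : (2 * d * c) ^ 2 = 4 * d * (d * c ^ 2) := by ring
      have e2 : 4 * d * (d * c ^ 2) ≤ 4 * d * (F0 - LB + 1) := by
        apply mul_le_mul_of_nonneg_left _ (by positivity)
        linarith
      have e3 : 4 * d * (F0 - LB + 1) = ε ^ 2 := by
        rw [hd]
        have : F0 - LB + 1 ≠ 0 := by positivity
        field_simp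
      rw [e1]; linarith
    exact abs_le_of_sq_le_sq h2 hε.le
  refine ⟨fun s => Real.exp (p.1 s), fun t => Real.exp (p.2 t), fun s => Real.exp_pos _,
    fun t => Real.exp_pos _, ?_, ?_⟩
  · intro a
    have hfo := first_order (A := ∑ t, z a t * Real.exp (p.1 a + p.2 t)) (l := lam a) (d := d)
      (c := p.1 a) (by
        intro r
        have h1 := hp (Function.update p.1 a (p.1 a + r), p.2)
        simp only at h1
        rw [sinkF_shift_left, sq_shift] at h1
        linarith)
    have he : ∑ t, Real.exp (p.1 a) * Real.exp (p.2 t) * z a t =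
        ∑ t, z a t * Real.exp (p.1 a + p.2 t) := by
      refine Finset.sum_congr rfl fun t _ => ?_
      rw [Real.exp_add]; ring
    rw [he]
    have h2 : (∑ t, z a t * Real.exp (p.1 a + p.2 t)) - lam a = -(2 * d * p.1 a) := by linarith
    rw [h2, abs_neg]
    apply hkey
    have := Finset.single_le_sum (f := fun s => p.1 s ^ 2) (fun t _ => sq_nonneg _)
      (Finset.mem_univ a)
    linarith
  · intro b
    have hfo := first_order (A := ∑ s, z s b * Real.exp (p.2 b + p.1 s)) (l := lam (φ.symm b))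
      (d := d) (c := p.2 b) (by
        intro r
        have h1 := hp (p.1, Function.update p.2 b (p.2 b + r))
        simp only at h1
        rw [sinkF_swap φ z lam p.1 p.2, sinkF_swap φ z lam p.1 (Function.update _ _ _),
          sinkF_shift_left, sq_shift] at h1
        linarith)
    have he : ∑ s, Real.exp (p.1 s) * Real.exp (p.2 b) * z s b =
        ∑ s, z s b * Real.exp (p.2 b + p.1 s) := by
      refine Finset.sum_congr rfl fun t _ => ?_
      rw [Real.exp_add]; ring
    rw [he]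
    have h2 : (∑ s, z s b * Real.exp (p.2 b + p.1 s)) - lam (φ.symm b) = -(2 * d * p.2 b) := by
      linarith
    rw [h2, abs_neg]
    apply hkey
    have := Finset.single_le_sum (f := fun s => p.2 s ^ 2) (fun t _ => sq_nonneg _)
      (Finset.mem_univ b)
    linarith

end Sink

end R5
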